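import Pool.Agent.Q153.PC.Main

/-! # MP_db4732_co: corner-free sets and additive energy -/

set_option autoImplicit false

open Finset
open scoped Pointwise

namespace Pool.Agent.Results.MP_db4732_co.AdditiveEnergy

/-- `V n = F_2^n` -/
abbrev V (n : ℕ) := Fin n → ZMod 2

/-- `A` contains no nontrivial corner `(x, y), (x, y + z), (x + z, y)`, `z ≠ 0` -/
def CornerFree {n : ℕ} (A : Finset (V n × V n)) : Prop :=
  ∀ x y z : V n, (x, y) ∈ A → (x, y + z) ∈ A → (x + z, y) ∈ A → z = 0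

/-- (1) For every `K` there is `C` such that every corner-free `A ⊆ (F_2^n)^2` with additive energy
at least `|A|³ / K` satisfies `|A|² ≤ C 8^n`, that is `|A| ≤ √C (4^n)^{3/4}`.
(2) The exponent is sharp, even for sets closed under addition: for every `m` some corner-free
`A ⊆ (F_2^{2m})^2` with `A + A = A` has `8^m` elements.
(3) The power-saving bound of the problem holds if and only if `C` can be chosen polynomial in `K`:
there are `C > 0` and `d` with `|A|² ≤ C K^d 8^n` for all `n`, all corner-free `A ⊆ (F_2^n)^2` and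
all `K ≥ 1` such that the additive energy of `A` is at least `|A|³ / K`. -/
theorem result :
    (∀ K : ℝ, 0 < K → ∃ C : ℝ, ∀ (n : ℕ) (A : Finset (V n × V n)), CornerFree A →
      (A.card : ℝ) ^ 3 ≤ K * (A.addEnergy A : ℕ) → (A.card : ℝ) ^ 2 ≤ C * 8 ^ n) ∧
    (∀ m : ℕ, ∃ A : Finset (V (m + m) × V (m + m)), CornerFree A ∧ A.card = 8 ^ m ∧ A + A = A) ∧
    ((∃ C c : ℝ, 0 < C ∧ 0 < c ∧ ∀ n : ℕ, 1 ≤ n → ∀ A : Finset (V n × V n),
        CornerFree A → (A.card : ℝ) ≤ C * 4 ^ ((1 - c) * (n : ℝ))) ↔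
      ∃ (C : ℝ) (d : ℕ), 0 < C ∧ ∀ (n : ℕ) (A : Finset (V n × V n)), CornerFree A →
        ∀ K : ℝ, 1 ≤ K → (A.card : ℝ) ^ 3 ≤ K * (A.addEnergy A : ℕ) →
          (A.card : ℝ) ^ 2 ≤ C * K ^ d * 8 ^ n) :=
  ⟨fun K hK => Q153.PC.fixed K hK, fun m => Q153.PC.example_sharp m,
    ⟨fun h => Q153.PC.forward h, fun h => Q153.PC.backward h⟩⟩

end Pool.Agent.Results.MP_db4732_co.AdditiveEnergy
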