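import Pool.Agent.Q108.CF.Num
import Pool.Agent.Q108.CF.Example

/-!
# Corner-free sets with low-degree certificates

Notation (from `Pool/Agent/Q108/CF`): `V n = Fin n → ZMod 2`; `CornerFree A`: the set
`A ⊆ V n × V n` contains no three points `(x, y), (x, y + z), (x + z, y)` with `z ≠ 0`;
`Poly K n k`: the functions `V n → K` of degree at most `k` over the field `K`, i.e. the span of the
products of at most `k` coordinate functions `[x i = 1]`; `ball n k = ∑ i ≤ k, n.choose i`, the
dimension of this space;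
`RowCert K k s B p`: there is `f ∈ Poly K n k` with `f p.1 ≠ 0` such that `(u, p.2) ∈ B` for all `u`
with `f u ≠ 0`, with at most `s` exceptions; `ColCert` and `DiagCert` are the same in the column
`{(p.1, v)}` and in the diagonal `{(u, p.1 + p.2 + u)}` of `p`.
-/

set_option autoImplicit false

namespace Pool.Agent.Results.MP_db4732_co.LowDegreeCertificates

open Pool.Agent.Q108.CF

/-- `p` lies in a row, a column or a diagonal in an affine subspace of codimension at most `k` (a
translate of the kernel of a linear map to `F_2^k`) which is contained in `A`, up to `s` points -/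
def AffineCert {n : ℕ} (k s : ℕ) (A : Set (V n × V n)) (p : V n × V n) : Prop :=
  ∃ L : V n →ₗ[ZMod 2] (Fin k → ZMod 2),
    {w | L w = 0 ∧ (p.1 + w, p.2) ∉ A}.ncard ≤ s ∨
    {w | L w = 0 ∧ (p.1, p.2 + w) ∉ A}.ncard ≤ s ∨
    {w | L w = 0 ∧ (p.1 + w, p.2 + w) ∉ A}.ncard ≤ s

theorem certs_of_affine {n k s : ℕ} {A : Set (V n × V n)} {p : V n × V n}
    (h : AffineCert k s A p) :
    RowCert (ZMod 2) k s A p ∨ ColCert (ZMod 2) k s A p ∨ DiagCert (ZMod 2) k s A p := by
  obtain ⟨L, h⟩ := h
  have key : ∀ (a : V n) (Q : V n → Prop), {w | L w = 0 ∧ Q (a + w)}.ncard ≤ s →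
      {u | (if L (u + a) = 0 then (1 : ZMod 2) else 0) ≠ 0 ∧ Q u}.ncard ≤ s := by
    intro a Q hQ
    have h1 : {u | (if L (u + a) = 0 then (1 : ZMod 2) else 0) ≠ 0 ∧ Q u} =
        (fun w => a + w) '' {w | L w = 0 ∧ Q (a + w)} := by
      ext u
      constructor
      · rintro ⟨h2, h3⟩
        have h4 : L (u + a) = 0 := by
          by_contra h5
          rw [if_neg h5] at h2
          exact h2 rfl
        refine ⟨u + a, ⟨h4, ?_⟩, ?_⟩
        · rwa [add_comm u a, ← add_assoc, add_self, zero_add]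
        · change a + (u + a) = u
          rw [add_comm u a, ← add_assoc, add_self, zero_add]
      · rintro ⟨w, ⟨h2, h3⟩, rfl⟩
        refine ⟨?_, h3⟩
        have h4 : a + w + a = w := by rw [add_comm a w, add_assoc, add_self, add_zero]
        change (if L (a + w + a) = 0 then (1 : ZMod 2) else 0) ≠ 0
        rw [h4, if_pos h2]
        exact one_ne_zero
    rw [h1, Set.ncard_image_of_injective _ (add_right_injective a)]
    exact hQ
  rcases h with h | h | h
  · left
    refine ⟨_, affine_mem L p.1, ?_, key p.1 (fun u => (u, p.2) ∉ A) h⟩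
    rw [add_self, map_zero, if_pos rfl]
    exact one_ne_zero
  · right; left
    refine ⟨_, affine_mem L p.2, ?_, key p.2 (fun u => (p.1, u) ∉ A) h⟩
    rw [add_self, map_zero, if_pos rfl]
    exact one_ne_zero
  · right; right
    refine ⟨_, affine_mem L p.1, ?_, key p.1 (fun u => (u, p.1 + p.2 + u) ∉ A) ?_⟩
    · rw [add_self, map_zero, if_pos rfl]
      exact one_ne_zero
    · have h1 : ∀ w : V n, p.1 + p.2 + (p.1 + w) = p.2 + w := by
        intro w
        have : p.1 + p.2 + (p.1 + w) = (p.1 + p.1) + (p.2 + w) := by abel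
        rw [this, add_self, zero_add]
      simp only [h1]
      exact h

/-- Let `A ⊆ (F_2^n)^2` be corner-free.
(1) The number of the points of `A` which have a certificate of degree at most `k` with at most `s`
errors in their row, in their column or in their diagonal is at most `3 (s + 1) ball n k 2^n`;
this is at most `3 (s + 1) 4^n exp (- 2 ε² n)` if `k ≤ (1 / 2 - ε) n`.
(2) The same for the points that lie, in a row, a column or a diagonal, in an affine subspace of
codimension at most `k` contained in `A` up to `s` points.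
(3) If `B ∩ C ⊆ A` and all points of `S ⊆ A` have a row certificate of degree `k` for `B` and a
diagonal certificate of degree `l` for `C`, with at most `s` and `t` errors, then `S` has at most
`(s + t + 1) ball n k ball n l 2^n` points; this is at most `(s + t + 1) 3.84^n` if `k, l ≤ n / 10`.
(4) For all `k` there is a corner-free set with `(n.choose k) 2^(n - k)` points, every one of which
lies, in its row, in an affine subspace of codimension at most `k` contained in the set. -/
theorem result :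
    (∀ (K : Type) [Field K] (n k s : ℕ) (A : Set (V n × V n)), CornerFree A →
      {p ∈ A | RowCert K k s A p ∨ ColCert K k s A p ∨ DiagCert K k s A p}.ncard ≤
          3 * (s + 1) * ball n k * 2 ^ n ∧
      ∀ ε : ℝ, 0 ≤ ε → (k : ℝ) ≤ (1 / 2 - ε) * n →
        ({p ∈ A | RowCert K k s A p ∨ ColCert K k s A p ∨ DiagCert K k s A p}.ncard : ℝ) ≤
          3 * (s + 1) * 4 ^ n * Real.exp (-(2 * ε ^ 2 * n))) ∧
    (∀ (n k s : ℕ) (A : Set (V n × V n)), CornerFree A →
      {p ∈ A | AffineCert k s A p}.ncard ≤ 3 * (s + 1) * ball n k * 2 ^ n ∧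
      ∀ ε : ℝ, 0 ≤ ε → (k : ℝ) ≤ (1 / 2 - ε) * n →
        ({p ∈ A | AffineCert k s A p}.ncard : ℝ) ≤
          3 * (s + 1) * 4 ^ n * Real.exp (-(2 * ε ^ 2 * n))) ∧
    (∀ (K : Type) [Field K] (n k l s t : ℕ) (A B C S : Set (V n × V n)), CornerFree A →
      S ⊆ A → B ∩ C ⊆ A → (∀ p ∈ S, RowCert K k s B p ∧ DiagCert K l t C p) →
      S.ncard ≤ (s + t + 1) * (ball n k * ball n l) * 2 ^ n ∧
      (10 * k ≤ n → 10 * l ≤ n → (S.ncard : ℝ) ≤ (s + t + 1) * (3.84 : ℝ) ^ n)) ∧
    (∀ n k : ℕ, ∃ A : Set (V n × V n), CornerFree A ∧ A.ncard = n.choose k * 2 ^ (n - k) ∧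
      ∀ p ∈ A, AffineCert k 0 A p) := by
  have num : ∀ (n k s N : ℕ), N ≤ 3 * (s + 1) * ball n k * 2 ^ n →
      ∀ ε : ℝ, 0 ≤ ε → (k : ℝ) ≤ (1 / 2 - ε) * n →
        (N : ℝ) ≤ 3 * (s + 1) * 4 ^ n * Real.exp (-(2 * ε ^ 2 * n)) := by
    intro n k s N h ε h0 hk
    have h1 : (N : ℝ) ≤ 3 * (s + 1) * (ball n k : ℝ) * 2 ^ n := by exact_mod_cast h
    have h2 := ball_le_exp n k ε h0 hk
    refine h1.trans ?_
    calc 3 * (s + 1) * (ball n k : ℝ) * 2 ^ n
        ≤ 3 * (s + 1) * (2 ^ n * Real.exp (-(2 * ε ^ 2 * n))) * 2 ^ n := by gcongr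
      _ = 3 * (s + 1) * (2 ^ n * 2 ^ n) * Real.exp (-(2 * ε ^ 2 * n)) := by ring
      _ = _ := by
          rw [← mul_pow]
          norm_num
  refine ⟨?_, ?_, ?_, ?_⟩
  · intro K _ n k s A hA
    have h1 := three_bound (K := K) hA k s
    have h2 : 3 * ((s + 1) * ball n k * 2 ^ n) = 3 * (s + 1) * ball n k * 2 ^ n := by ring
    rw [h2] at h1
    exact ⟨h1, num n k s _ h1⟩
  · intro n k s A hA
    have h1 := three_bound (K := ZMod 2) hA k s
    have h2 : 3 * ((s + 1) * ball n k * 2 ^ n) = 3 * (s + 1) * ball n k * 2 ^ n := by ring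
    rw [h2] at h1
    have h3 : {p ∈ A | AffineCert k s A p}.ncard ≤ 3 * (s + 1) * ball n k * 2 ^ n := by
      refine (Set.ncard_le_ncard ?_ (Set.toFinite _)).trans h1
      rintro p ⟨hp, h⟩
      exact ⟨hp, certs_of_affine h⟩
    exact ⟨h3, num n k s _ h3⟩
  · intro K _ n k l s t A B C S hA hS hBC h
    have h1 := two_certs hA hS hBC h
    refine ⟨h1, fun hk hl => ?_⟩
    have h2 : (S.ncard : ℝ) ≤ (s + t + 1) * ((ball n k : ℝ) * ball n l) * 2 ^ n := by
      exact_mod_cast h1
    have h3 := ball_le_tenth n k hk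
    have h4 := ball_le_tenth n l hl
    refine h2.trans ?_
    calc (s + t + 1 : ℝ) * ((ball n k : ℝ) * ball n l) * 2 ^ n
        ≤ (s + t + 1 : ℝ) * ((1.3845 : ℝ) ^ n * (1.3845 : ℝ) ^ n) * 2 ^ n := by gcongr
      _ = (s + t + 1 : ℝ) * (1.3845 * 1.3845 * 2 : ℝ) ^ n := by
          rw [mul_assoc, ← mul_pow, ← mul_pow]
      _ ≤ _ := by
          gcongr
          norm_num
  · intro n k
    refine ⟨Ex n k, Ex_cornerFree n k, Ex_card n k, fun p hp => ?_⟩
    obtain ⟨L, hL⟩ := Ex_affine hp
    refine ⟨L, Or.inl ?_⟩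
    rw [hL]
    simp

end Pool.Agent.Results.MP_db4732_co.LowDegreeCertificates
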