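import Pool.Agent.Q112.WL.Any

/-!
# Problem MP_db4732_co: corner-free sets closed under operations of the rows, columns and diagonals

Let `A ⊆ V × V`, `V` a finite abelian group, be nonempty and closed under idempotent operations of the rows
`x`, the columns `y` and the diagonals `x + y` (arbitrary operations on the set `V`), at least one of which
is a weak near unanimity operation.  Then `A` contains `(u + K) × (v + K)` for a subgroup `K` with
`|A|² ≤ |K| |V|³`.  So corner-free sets of this kind in `(F_2^n)²` satisfy `|A| ≤ (4 ^ n) ^ (3 / 4)`.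
-/

set_option autoImplicit false

open Finset

namespace Pool.Agent.Results.MP_db4732_co.RowColumnDiagonalOperations

/-- `V n = F_2^n` -/
abbrev V (n : ℕ) := Fin n → ZMod 2

/-- `A` contains no nontrivial corner `(x, y), (x, y + z), (x + z, y)`, `z ≠ 0`. -/
def CornerFree {H : Type} [AddCommGroup H] (A : Finset (H × H)) : Prop :=
  ∀ x y z : H, (x, y) ∈ A → (x, y + z) ∈ A → (x + z, y) ∈ A → z = 0

/-- `w (x, ..., x) = x`. -/
def IsIdempotent {D : Type} {r : ℕ} (w : (Fin r → D) → D) : Prop := ∀ x : D, w (fun _ => x) = x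

/-- `w` is a weak near unanimity operation: it is idempotent, and `w (x, ..., x, y, x, ..., x)` does not
depend on the position of `y`. -/
def IsWeakNearUnanimity {D : Type} {r : ℕ} (w : (Fin r → D) → D) : Prop :=
  IsIdempotent w ∧ ∀ (i j : Fin r) (x y : D),
    w (Function.update (fun _ => x) i y) = w (Function.update (fun _ => x) j y)

/-- For some `r ≥ 2` there are idempotent `r`-ary operations `wR`, `wC`, `wD` of the rows, columns and
diagonals, at least one of them a weak near unanimity operation, such that `A` is closed under them: for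
all `p₁, …, p_r ∈ A` there is `p ∈ A` whose row, column and diagonal are the values of `wR`, `wC`, `wD` at
the rows, columns and diagonals of the `pₗ`. -/
def ClosedRCD {H : Type} [AddCommGroup H] (A : Finset (H × H)) : Prop :=
  ∃ (r : ℕ) (wR wC wD : (Fin r → H) → H), 2 ≤ r ∧ IsIdempotent wR ∧ IsIdempotent wC ∧
    IsIdempotent wD ∧ (IsWeakNearUnanimity wR ∨ IsWeakNearUnanimity wC ∨ IsWeakNearUnanimity wD) ∧
    ∀ p : Fin r → H × H, (∀ l, p l ∈ A) → ∃ q ∈ A, q.1 = (wR fun l => (p l).1) ∧
      q.2 = (wC fun l => (p l).2) ∧ q.1 + q.2 = wD fun l => (p l).1 + (p l).2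

/-- the points of the example -/
def f {m k : ℕ} (a : V m × V m × V m × V k × V k) : V (m + m + k) × V (m + m + k) :=
  (Fin.append (Fin.append a.1 a.2.1) a.2.2.2.1, Fin.append (Fin.append a.2.2.1 a.1) a.2.2.2.2)

lemma app1 {p q : ℕ} (a : V p) (b : V q) (i : Fin p) : Fin.append a b (Fin.castAdd q i) = a i :=
  Fin.append_left a b i

lemma app2 {p q : ℕ} (a : V p) (b : V q) (i : Fin q) : Fin.append a b (Fin.natAdd p i) = b i :=
  Fin.append_right a b i

lemma f_inj {m k : ℕ} : Function.Injective (f (m := m) (k := k)) := by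
  rintro ⟨a, b, c, d, e⟩ ⟨a', b', c', d', e'⟩ h
  simp only [f, Prod.mk.injEq] at h ⊢
  obtain ⟨h1, h2⟩ := h
  refine ⟨?_, ?_, ?_, ?_, ?_⟩
  · ext1 i
    have := congrFun h1 (Fin.castAdd k (Fin.castAdd m i))
    rwa [app1, app1, app1, app1] at this
  · ext1 i
    have := congrFun h1 (Fin.castAdd k (Fin.natAdd m i))
    rwa [app1, app2, app1, app2] at this
  · ext1 i
    have := congrFun h2 (Fin.castAdd k (Fin.castAdd m i))
    rwa [app1, app1, app1, app1] at this
  · ext1 i
    have := congrFun h1 (Fin.natAdd (m + m) i)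
    rwa [app2, app2] at this
  · ext1 i
    have := congrFun h2 (Fin.natAdd (m + m) i)
    rwa [app2, app2] at this

/-- the defining equations of the example -/
lemma f_eq {m k : ℕ} {a : V m × V m × V m × V k × V k} (i : Fin m) :
    (f a).1 (Fin.castAdd k (Fin.castAdd m i)) = (f a).2 (Fin.castAdd k (Fin.natAdd m i)) := by
  simp only [f]
  rw [app1, app1, app1, app2]

lemma mem_f {m k : ℕ} {p : V (m + m + k) × V (m + m + k)}
    (h : ∀ i, p.1 (Fin.castAdd k (Fin.castAdd m i)) = p.2 (Fin.castAdd k (Fin.natAdd m i))) :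
    ∃ a, f a = p := by
  refine ⟨(fun i => p.1 (Fin.castAdd k (Fin.castAdd m i)), fun i => p.1 (Fin.castAdd k (Fin.natAdd m i)),
    fun i => p.2 (Fin.castAdd k (Fin.castAdd m i)), fun i => p.1 (Fin.natAdd (m + m) i),
    fun i => p.2 (Fin.natAdd (m + m) i)), ?_⟩
  refine Prod.ext ?_ ?_
  · ext1 i
    refine Fin.addCases (fun i => ?_) (fun i => ?_) i
    · refine Fin.addCases (fun i => ?_) (fun i => ?_) i
      · simp only [f]; rw [app1, app1]
      · simp only [f]; rw [app1, app2]
    · simp only [f]; rw [app2]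
  · ext1 i
    refine Fin.addCases (fun i => ?_) (fun i => ?_) i
    · refine Fin.addCases (fun i => ?_) (fun i => ?_) i
      · simp only [f]; rw [app1, app1]
      · simp only [f]; rw [app1, app2, h i]
    · simp only [f]; rw [app2]

theorem sharp (m k : ℕ) : ∃ A : Finset (V (m + m + k) × V (m + m + k)), ClosedRCD A ∧
    A.card = 8 ^ m * 4 ^ k ∧ (k = 0 → CornerFree A) ∧
    ∀ (K : AddSubgroup (V (m + m + k))) (u v : V (m + m + k)),
      (∀ g ∈ K, ∀ h ∈ K, (u + g, v + h) ∈ A) → Nat.card K ≤ 2 ^ k := by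
  classical
  have h3 : ∀ n (x : V n), x + x + x = x := by
    intro n x
    ext1 i
    have : ∀ a : ZMod 2, a + a + a = a := by decide
    exact this (x i)
  refine ⟨univ.image f, ⟨3, fun x => x 0 + x 1 + x 2, fun x => x 0 + x 1 + x 2,
    fun x => x 0 + x 1 + x 2, by norm_num, fun x => h3 _ x, fun x => h3 _ x, fun x => h3 _ x,
    Or.inl ⟨fun x => h3 _ x, ?_⟩, ?_⟩, ?_, ?_, ?_⟩
  · have key : ∀ (i : Fin 3) (x y : V (m + m + k)),
        (fun x : Fin 3 → V (m + m + k) => x 0 + x 1 + x 2) (Function.update (fun _ => x) i y) = y := by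
      intro i x y
      have h4 : ∀ a b : ZMod 2, a + a + b = b ∧ a + b + a = b ∧ b + a + a = b := by decide
      ext1 l
      fin_cases i
      · simp [Function.update, (h4 (x l) (y l)).2.2]
      · simp [Function.update, (h4 (x l) (y l)).2.1]
      · simp [Function.update, (h4 (x l) (y l)).1]
    intro i j x y
    rw [key, key]
  · intro p hp
    refine ⟨p 0 + p 1 + p 2, ?_, rfl, rfl, ?_⟩
    · obtain ⟨a, ha⟩ := mem_f (m := m) (k := k) (p := p 0 + p 1 + p 2) (by
        intro i
        obtain ⟨a0, _, h0⟩ := mem_image.1 (hp 0)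
        obtain ⟨a1, _, h1⟩ := mem_image.1 (hp 1)
        obtain ⟨a2, _, h2⟩ := mem_image.1 (hp 2)
        rw [← h0, ← h1, ← h2]
        simp only [Prod.fst_add, Prod.snd_add, Pi.add_apply]
        rw [f_eq, f_eq, f_eq])
      rw [← ha]
      exact mem_image_of_mem _ (mem_univ _)
    · simp only [Prod.fst_add, Prod.snd_add]
      abel
  · rw [card_image_of_injective _ f_inj, card_univ]
    simp only [Fintype.card_prod, Fintype.card_pi, ZMod.card, prod_const, card_univ, Fintype.card_fin]
    rw [show (8 : ℕ) = 2 ^ 3 by norm_num, show (4 : ℕ) = 2 ^ 2 by norm_num, ← pow_mul, ← pow_mul]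
    ring
  · intro hk x y z h1 h2 h3
    obtain ⟨a, _, ha⟩ := mem_image.1 h1
    obtain ⟨b, _, hb⟩ := mem_image.1 h2
    obtain ⟨c, _, hc⟩ := mem_image.1 h3
    ext1 i
    rw [Pi.zero_apply]
    refine Fin.addCases (fun i => ?_) (fun i => ?_) i
    · refine Fin.addCases (fun i => ?_) (fun i => ?_) i
      · have e1 := f_eq (a := a) i
        have e2 := f_eq (a := c) i
        rw [ha] at e1
        rw [hc] at e2
        have e3 := e2.trans e1.symm
        simp only [Pi.add_apply] at e3
        exact add_eq_left.1 e3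
      · have e1 := f_eq (a := a) i
        have e2 := f_eq (a := b) i
        rw [ha] at e1
        rw [hb] at e2
        have e3 := e2.symm.trans e1
        simp only [Pi.add_apply] at e3
        exact add_eq_left.1 e3
    · subst hk
      exact i.elim0
  · intro K u v hK
    have hz : ∀ g ∈ K, ∀ i : Fin (m + m), g (Fin.castAdd k i) = 0 := by
      have hm : ∀ g ∈ K, ∀ h ∈ K, ∀ i : Fin m, (u + g) (Fin.castAdd k (Fin.castAdd m i)) =
          (v + h) (Fin.castAdd k (Fin.natAdd m i)) := by
        intro g hg h hh i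
        obtain ⟨a, _, ha⟩ := mem_image.1 (hK g hg h hh)
        have h1 := f_eq (a := a) i
        rw [ha] at h1
        exact h1
      intro g hg i
      have h0 := K.zero_mem
      refine Fin.addCases (fun i => ?_) (fun i => ?_) i
      · have h1 := (hm g hg 0 h0 i).trans (hm 0 h0 0 h0 i).symm
        simp only [Pi.add_apply, Pi.zero_apply, add_zero] at h1
        exact add_eq_left.1 h1
      · have h1 := (hm 0 h0 g hg i).symm.trans (hm 0 h0 0 h0 i)
        simp only [Pi.add_apply, Pi.zero_apply, add_zero] at h1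
        exact add_eq_left.1 h1
    have hinj : Function.Injective fun g : K => fun i : Fin k => g.1 (Fin.natAdd (m + m) i) := by
      intro g g' h
      apply Subtype.ext
      ext1 i
      refine Fin.addCases (fun i => ?_) (fun i => ?_) i
      · rw [hz g.1 g.2, hz g'.1 g'.2]
      · exact congrFun h i
    refine (Nat.card_le_card_of_injective _ hinj).trans (le_of_eq ?_)
    rw [Nat.card_eq_fintype_card]
    simp

theorem result :
    -- (1) all finite abelian groups
    (∀ (H : Type) [AddCommGroup H] [Fintype H] (A : Finset (H × H)), A.Nonempty → ClosedRCD A →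
      ∃ (K : AddSubgroup H) (u v : H), (∀ g ∈ K, ∀ h ∈ K, (u + g, v + h) ∈ A) ∧
        A.card ^ 2 ≤ Nat.card K * Fintype.card H ^ 3) ∧
    (∀ (H : Type) [AddCommGroup H] [Fintype H] (A : Finset (H × H)), CornerFree A → ClosedRCD A →
      A.card ^ 2 ≤ Fintype.card H ^ 3) ∧
    -- (2) the problem: power saving with the exponent `3/4`
    (∀ (n : ℕ) (A : Finset (V n × V n)), CornerFree A → ClosedRCD A →
      (A.card : ℝ) ≤ ((4 : ℝ) ^ n) ^ (3 / 4 : ℝ)) ∧
    -- (3) both are sharp
    (∀ m k : ℕ, ∃ A : Finset (V (m + m + k) × V (m + m + k)), ClosedRCD A ∧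
      A.card = 8 ^ m * 4 ^ k ∧ (k = 0 → CornerFree A) ∧
      ∀ (K : AddSubgroup (V (m + m + k))) (u v : V (m + m + k)),
        (∀ g ∈ K, ∀ h ∈ K, (u + g, v + h) ∈ A) → Nat.card K ≤ 2 ^ k) := by
  classical
  have h1 : ∀ (H : Type) [AddCommGroup H] [Fintype H] (A : Finset (H × H)), A.Nonempty → ClosedRCD A →
      ∃ (K : AddSubgroup H) (u v : H), (∀ g ∈ K, ∀ h ∈ K, (u + g, v + h) ∈ A) ∧
        A.card ^ 2 ≤ Nat.card K * Fintype.card H ^ 3 := by
    intro H _ _ A hne hA
    obtain ⟨r, wR, wC, wD, hr, hR, hC, hD, hw, hcl⟩ := hA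
    exact Q112.WL.pairs (by rw [Fintype.card_fin]; exact hr) hR hC hD
      (hw.imp (fun h => h.2) (fun h => h.imp (fun h => h.2) fun h => h.2)) hcl hne
  have h2 : ∀ (H : Type) [AddCommGroup H] [Fintype H] (A : Finset (H × H)), CornerFree A →
      ClosedRCD A → A.card ^ 2 ≤ Fintype.card H ^ 3 := by
    intro H _ _ A hc hA
    rcases A.eq_empty_or_nonempty with rfl | hne
    · simp
    · obtain ⟨K, u, v, hK, hcard⟩ := h1 H A hne hA
      have hK1 : Nat.card K = 1 := by
        rw [Nat.card_eq_one_iff_unique]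
        refine ⟨⟨fun g g' => Subtype.ext ?_⟩, ⟨0⟩⟩
        have key : ∀ g ∈ K, g = 0 := by
          intro g hg
          have e1 := hK 0 K.zero_mem 0 K.zero_mem
          have e2 := hK 0 K.zero_mem g hg
          have e3 := hK g hg 0 K.zero_mem
          rw [add_zero, add_zero] at e1
          rw [add_zero] at e2 e3
          exact hc u v g e1 e2 e3
        rw [key _ g.2, key _ g'.2]
      rw [hK1, one_mul] at hcard
      exact hcard
  refine ⟨h1, h2, ?_, sharp⟩
  · intro n A hc hA
    have h3 := h2 (V n) A hc hA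
    have h4 : Fintype.card (V n) = 2 ^ n := by simp
    rw [h4] at h3
    have h5 : ((A.card : ℝ)) ^ 2 ≤ ((2 : ℝ) ^ n) ^ 3 := by exact_mod_cast h3
    have h6 : (((4 : ℝ) ^ n) ^ (3 / 4 : ℝ)) ^ 2 = ((2 : ℝ) ^ n) ^ 3 := by
      rw [← Real.rpow_natCast (((4 : ℝ) ^ n) ^ (3 / 4 : ℝ)) 2, ← Real.rpow_mul (by positivity),
        show (4 : ℝ) = 2 ^ 2 by norm_num, ← pow_mul, mul_comm 2 n, pow_mul,
        ← Real.rpow_natCast ((2 : ℝ) ^ n) 2, ← Real.rpow_mul (by positivity),
        ← Real.rpow_natCast ((2 : ℝ) ^ n) 3]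
      norm_num
    exact le_of_sq_le_sq (by rw [h6]; exact h5) (by positivity)

end Pool.Agent.Results.MP_db4732_co.RowColumnDiagonalOperations
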