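import Pool.Agent.Q93.CR.Main

set_option autoImplicit false

/-! # Power-saving bounds for corner-free sets and a polynomial corner removal lemma

For every `c > 0` the following are equivalent.

* Corner-free subsets of `(F_2^n)^2` have at most `C 4 ^ ((1 - c) n)` points.
* Removal: there is `κ > 0` such that a set with fewer than `κ ε ^ (1 + 1 / (2 c)) 8 ^ n` corners can
  be made corner-free by removing at most `ε 4 ^ n` points.
* Supersaturation: there is `κ > 0` such that a set of density `α` has at least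
  `κ α ^ (1 + 1 / (2 c)) 8 ^ n` corners, the trivial ones included.

So no power is lost in the exponent `1 + 1 / (2 c)` in either direction. -/

open Finset

namespace Pool.Agent.Results.MP_db4732_co.TightCornerRemoval

/-- the group `F_2^n` -/
abbrev V (n : ℕ) := Fin n → ZMod 2

/-- `A` has no nontrivial corner -/
def CornerFree {n : ℕ} (A : Finset (V n × V n)) : Prop :=
  ∀ x y z : V n, z ≠ 0 → (x, y) ∈ A → (x, y + z) ∈ A → (x + z, y) ∉ A

/-- the number of nontrivial corners `(x, y), (x, y + z), (x + z, y)`, `z ≠ 0`, in `A` -/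
def cornerCount {n : ℕ} (A : Finset (V n × V n)) : ℕ :=
  (univ.filter fun t : V n × V n × V n => t.2.2 ≠ 0 ∧ (t.1, t.2.1) ∈ A ∧
    (t.1, t.2.1 + t.2.2) ∈ A ∧ (t.1 + t.2.2, t.2.1) ∈ A).card

/-- the power-saving bound with exponent `c` -/
def PowerSaving (c : ℝ) : Prop :=
  ∃ C : ℝ, 0 < C ∧ ∀ n : ℕ, 1 ≤ n → ∀ A : Finset (V n × V n), CornerFree A →
    (A.card : ℝ) ≤ C * (4 : ℝ) ^ ((1 - c) * n)

/-- the polynomial corner removal lemma with exponent `D` -/
def Removal (D : ℝ) : Prop :=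
  ∃ κ : ℝ, 0 < κ ∧ ∀ (n : ℕ) (A : Finset (V n × V n)) (ε : ℝ), 0 < ε →
    (cornerCount A : ℝ) < κ * ε ^ D * (8 : ℝ) ^ n →
    ∃ A' ⊆ A, CornerFree A' ∧ ((A \ A').card : ℝ) ≤ ε * (4 : ℝ) ^ n

/-- polynomial supersaturation with exponent `D`; `cornerCount A + A.card` is the number of all
corners, trivial or not -/
def Supersaturation (D : ℝ) : Prop :=
  ∃ κ : ℝ, 0 < κ ∧ ∀ (n : ℕ) (A : Finset (V n × V n)),
    κ * ((A.card : ℝ) / (4 : ℝ) ^ n) ^ D * (8 : ℝ) ^ n ≤ cornerCount A + A.card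

lemma four_pow (n : ℕ) : (4 : ℝ) ^ n = ((2 : ℝ) ^ n) ^ 2 := by
  rw [← pow_mul, mul_comm, pow_mul]; norm_num

lemma eight_pow (n : ℕ) : (8 : ℝ) ^ n = ((2 : ℝ) ^ n) ^ 3 := by
  rw [← pow_mul, mul_comm, pow_mul]; norm_num

lemma four_rpow (n : ℕ) (c : ℝ) : (4 : ℝ) ^ ((1 - c) * n) = ((2 : ℝ) ^ n) ^ (2 - 2 * c) := by
  have h4 : (4 : ℝ) = (2 : ℝ) ^ (2 : ℝ) := by norm_num
  rw [h4, ← Real.rpow_mul (by norm_num), ← Real.rpow_natCast, ← Real.rpow_mul (by norm_num)]
  congr 1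
  ring

lemma ps_iff (c : ℝ) : PowerSaving c ↔ ∃ C : ℝ, 0 < C ∧ Pool.Agent.Q93.CR.PS c C := by
  constructor
  · rintro ⟨C, hC, h⟩
    refine ⟨max C 1, lt_max_of_lt_left hC, ?_⟩
    intro n A hA
    rcases Nat.eq_zero_or_pos n with rfl | hn
    · have h1 : A.card ≤ 1 := by
        refine (card_le_univ A).trans ?_
        rw [Fintype.card_prod, Fintype.card_fun]
        simp
      have h2 : ((2 : ℝ) ^ 0) ^ (2 - 2 * c) = 1 := by rw [pow_zero, Real.one_rpow]
      rw [h2, mul_one]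
      exact le_trans (by exact_mod_cast h1) (le_max_right _ _)
    · have h1 := h n hn A hA
      rw [four_rpow] at h1
      exact h1.trans (mul_le_mul_of_nonneg_right (le_max_left _ _) (by positivity))
  · rintro ⟨C, hC, h⟩
    refine ⟨C, hC, fun n _ A hA => ?_⟩
    rw [four_rpow]
    exact h n A hA

lemma rl_iff (D : ℝ) : Removal D ↔ ∃ κ : ℝ, 0 < κ ∧ Pool.Agent.Q93.CR.RL D κ := by
  unfold Removal Pool.Agent.Q93.CR.RL
  simp only [four_pow, eight_pow]
  rfl

lemma ss_iff (D : ℝ) : Supersaturation D ↔ ∃ κ : ℝ, 0 < κ ∧ Pool.Agent.Q93.CR.SS D κ := by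
  unfold Supersaturation Pool.Agent.Q93.CR.SS
  simp only [four_pow, eight_pow]
  rfl

lemma removal_mono {D D' : ℝ} (hDD : D ≤ D') (h : Removal D) : Removal D' := by
  obtain ⟨κ, hκ, h⟩ := h
  refine ⟨κ, hκ, fun n A ε hε hcor => ?_⟩
  by_cases h1 : ε ≤ 1
  · refine h n A ε hε (hcor.trans_le ?_)
    refine mul_le_mul_of_nonneg_right (mul_le_mul_of_nonneg_left ?_ hκ.le) (by positivity)
    exact Real.rpow_le_rpow_of_exponent_ge hε h1 hDD
  · push Not at h1
    refine ⟨∅, empty_subset _, fun x y z _ hx => absurd hx (notMem_empty _), ?_⟩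
    rw [sdiff_empty]
    have h2 : A.card ≤ 4 ^ n := by
      refine (card_le_univ A).trans (le_of_eq ?_)
      rw [Fintype.card_prod, Fintype.card_fun, ZMod.card, Fintype.card_fin, ← mul_pow]
      norm_num
    calc (A.card : ℝ) ≤ (4 : ℝ) ^ n := by exact_mod_cast h2
      _ ≤ ε * (4 : ℝ) ^ n := le_mul_of_one_le_left (by positivity) h1.le

theorem result :
    (∀ c : ℝ, 0 < c → (PowerSaving c ↔ Removal (1 + 1 / (2 * c)))) ∧
    (∀ c : ℝ, 0 < c → (PowerSaving c ↔ Supersaturation (1 + 1 / (2 * c)))) ∧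
    ((∃ c : ℝ, 0 < c ∧ PowerSaving c) ↔ ∃ D : ℝ, Removal D) := by
  have h1 : ∀ c : ℝ, 0 < c → (PowerSaving c ↔ Removal (1 + 1 / (2 * c))) := by
    intro c hc
    rw [ps_iff, rl_iff]
    constructor
    · rintro ⟨C, hC, h⟩
      exact Pool.Agent.Q93.CR.RL_of_PS hc hC h
    · rintro ⟨κ, hκ, h⟩
      exact Pool.Agent.Q93.CR.PS_of_RL hc hκ h
  refine ⟨h1, ?_, ?_⟩
  · intro c hc
    rw [ps_iff, ss_iff]
    constructor
    · rintro ⟨C, hC, h⟩
      exact Pool.Agent.Q93.CR.SS_of_PS hc hC h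
    · rintro ⟨κ, hκ, h⟩
      exact Pool.Agent.Q93.CR.PS_of_SS hc hκ h
  · constructor
    · rintro ⟨c, hc, h⟩
      exact ⟨_, (h1 c hc).1 h⟩
    · rintro ⟨D, h⟩
      have hD : 0 < max D 2 - 1 := by have := le_max_right D 2; linarith
      refine ⟨1 / (2 * (max D 2 - 1)), by positivity, (h1 _ (by positivity)).2 ?_⟩
      have e : 1 + 1 / (2 * (1 / (2 * (max D 2 - 1)))) = max D 2 := by
        field_simp
        ring
      rw [e]
      exact removal_mono (le_max_left _ _) h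

end Pool.Agent.Results.MP_db4732_co.TightCornerRemoval
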